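import Pool.Agent.L7h47.DF.Stm

/-!
Project DF (helper47), part QUO: a finite abelian group of order divisible by the prime `u` maps
onto `ZMod u`.
-/

set_option autoImplicit false

namespace Pool.Agent.L7h99.DF

open Pool.Agent.L7h47.DF

lemma exists_form (Q : Type) [AddCommGroup Q] (u : ℕ) [Fact u.Prime] (h : ∀ x : Q, u • x = 0)
    (v : Q) (hv : v ≠ 0) : ∃ f : Q →+ ZMod u, f v ≠ 0 := by
  let inst : Module (ZMod u) Q := AddCommGroup.zmodModule (n := u) h
  obtain ⟨φ, hφ⟩ : ∃ φ : Q →ₗ[ZMod u] ZMod u, φ v ≠ 0 := by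
    by_contra hcon
    push Not at hcon
    exact hv ((Module.forall_dual_apply_eq_zero_iff (ZMod u) v).mp hcon)
  exact ⟨φ.toAddMonoidHom, hφ⟩

theorem s_QUO : S_QUO := by
  intro G _ _ u hu hdvd
  haveI : Fact u.Prime := ⟨hu⟩
  set m : G →+ G := nsmulAddMonoidHom u with hm
  have hH : m.range ≠ ⊤ := by
    intro h
    have hs : Function.Surjective m := AddMonoidHom.range_eq_top.mp h
    have hi : Function.Injective m := Finite.injective_iff_surjective.mpr hs
    obtain ⟨x, hx⟩ := exists_prime_addOrderOf_dvd_card u hdvd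
    have h1 : m x = m 0 := by
      rw [map_zero]
      show u • x = 0
      rw [← hx]
      exact addOrderOf_nsmul_eq_zero x
    have h2 := hi h1
    rw [h2, addOrderOf_zero] at hx
    exact hu.one_lt.ne hx
  obtain ⟨g, hg⟩ : ∃ g, g ∉ m.range := by
    by_contra hcon
    push Not at hcon
    exact hH (eq_top_iff.mpr fun x _ => hcon x)
  have hv : (QuotientAddGroup.mk g : G ⧸ m.range) ≠ 0 := by
    rw [Ne, QuotientAddGroup.eq_zero_iff]
    exact hg
  obtain ⟨φ, hφ⟩ := exists_form (G ⧸ m.range) u (fun x => by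
    obtain ⟨y, rfl⟩ := QuotientAddGroup.mk_surjective x
    rw [← QuotientAddGroup.mk_nsmul, QuotientAddGroup.eq_zero_iff]
    exact ⟨y, rfl⟩) _ hv
  refine ⟨φ.comp (QuotientAddGroup.mk' m.range), fun y => ?_⟩
  refine ⟨(y / φ (QuotientAddGroup.mk g : G ⧸ m.range)).val • g, ?_⟩
  rw [map_nsmul, nsmul_eq_mul, ZMod.natCast_zmod_val]
  exact div_mul_cancel₀ _ hφ

end Pool.Agent.L7h99.DF
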